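import Pool.Agent.H369R3.UT.Defs

set_option autoImplicit false

open Set Filter Topology Metric MeasureTheory

namespace Pool.Agent.H369R3.UT

namespace E802

theorem taylor2 {n : ℕ} (f : Cn n → ℝ) (z : Cn n) (hf : ContDiff ℝ 3 f) (ε : ℝ) (hε : 0 < ε) :
    ∃ δ : ℝ, 0 < δ ∧ ∀ v : Cn n, ‖v‖ < δ →
      f (z + v) ≤ f z + fderiv ℝ f z v + 1 / 2 * fderiv ℝ (fderiv ℝ f) z v v + ε * ‖v‖ ^ 2 := by
  have hdf : Differentiable ℝ f := hf.differentiable (by norm_num)
  have h1 : ContDiff ℝ 2 (fderiv ℝ f) := hf.fderiv_right (by norm_num)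
  have hd : HasFDerivAt (fderiv ℝ f) (fderiv ℝ (fderiv ℝ f) z) z :=
    (h1.differentiable (by norm_num) z).hasFDerivAt
  set B := fderiv ℝ (fderiv ℝ f) z with hB
  have h2 := hd.isLittleO
  rw [Asymptotics.isLittleO_iff] at h2
  obtain ⟨δ, hδ, h3⟩ := Metric.eventually_nhds_iff.1 (h2 hε)
  refine ⟨δ, hδ, fun v hv => ?_⟩
  have hder : ∀ t : ℝ, HasDerivAt (fun t : ℝ => f (z + t • v) - t * fderiv ℝ f z v
      - 1 / 2 * t ^ 2 * B v v) (fderiv ℝ f (z + t • v) v - fderiv ℝ f z v - t * B v v) t := by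
    intro t
    have e1 : HasDerivAt (fun t : ℝ => z + t • v) v t := by
      have := ((hasDerivAt_id t).smul_const v).const_add z
      simpa using this
    have e2 : HasDerivAt (fun t : ℝ => f (z + t • v)) (fderiv ℝ f (z + t • v) v) t :=
      (hdf (z + t • v)).hasFDerivAt.comp_hasDerivAt t e1
    have e3 : HasDerivAt (fun t : ℝ => t * fderiv ℝ f z v) (fderiv ℝ f z v) t := by
      simpa using (hasDerivAt_id t).mul_const (fderiv ℝ f z v)
    have e4 : HasDerivAt (fun t : ℝ => 1 / 2 * t ^ 2 * B v v) (t * B v v) t := by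
      have := (((hasDerivAt_pow 2 t).const_mul (1 / 2 : ℝ))).mul_const (B v v)
      refine this.congr_deriv ?_
      have e5 : (2 - 1 : ℕ) = 1 := rfl
      rw [e5, pow_one]
      push_cast
      ring
    exact (e2.sub e3).sub e4
  have hbd : ∀ t ∈ Ico (0 : ℝ) 1,
      ‖fderiv ℝ f (z + t • v) v - fderiv ℝ f z v - t * B v v‖ ≤ ε * ‖v‖ ^ 2 := by
    intro t ht
    have e1 : dist (z + t • v) z < δ := by
      rw [dist_eq_norm, add_sub_cancel_left, norm_smul, Real.norm_eq_abs, abs_of_nonneg ht.1]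
      calc t * ‖v‖ ≤ 1 * ‖v‖ := by
            apply mul_le_mul_of_nonneg_right ht.2.le (norm_nonneg _)
        _ < δ := by rw [one_mul]; exact hv
    have e2 := h3 e1
    rw [add_sub_cancel_left] at e2
    have e3 : fderiv ℝ f (z + t • v) v - fderiv ℝ f z v - t * B v v =
        (fderiv ℝ f (z + t • v) - fderiv ℝ f z - B (t • v)) v := by
      simp
    rw [e3]
    calc ‖(fderiv ℝ f (z + t • v) - fderiv ℝ f z - B (t • v)) v‖
        ≤ ‖fderiv ℝ f (z + t • v) - fderiv ℝ f z - B (t • v)‖ * ‖v‖ :=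
          ContinuousLinearMap.le_opNorm _ _
      _ ≤ ε * ‖t • v‖ * ‖v‖ := by
          apply mul_le_mul_of_nonneg_right e2 (norm_nonneg _)
      _ ≤ ε * ‖v‖ * ‖v‖ := by
          have : ‖t • v‖ ≤ ‖v‖ := by
            rw [norm_smul, Real.norm_eq_abs, abs_of_nonneg ht.1]
            calc t * ‖v‖ ≤ 1 * ‖v‖ := by
                  apply mul_le_mul_of_nonneg_right ht.2.le (norm_nonneg _)
              _ = ‖v‖ := one_mul _
          gcongr
      _ = ε * ‖v‖ ^ 2 := by ring
  have hmv := norm_image_sub_le_of_norm_deriv_le_segment_01'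
    (fun t _ => (hder t).hasDerivWithinAt) hbd
  rw [Real.norm_eq_abs] at hmv
  have h4 := (abs_le.1 hmv).2
  simp only [one_smul, zero_smul, add_zero, one_mul, zero_mul, one_pow, mul_one] at h4
  norm_num at h4
  linarith

theorem trig (A0 A1 A2 A3 A4 A5 : ℝ) :
    ∫ θ in (0 : ℝ)..(2 * Real.pi), (A0 + A1 * Real.cos θ + A2 * Real.sin θ + A3 * Real.cos θ ^ 2
      + A4 * (Real.sin θ * Real.cos θ) + A5 * Real.sin θ ^ 2) =
      2 * Real.pi * A0 + Real.pi * A3 + Real.pi * A5 := by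
  rw [intervalIntegral.integral_add, intervalIntegral.integral_add, intervalIntegral.integral_add,
    intervalIntegral.integral_add, intervalIntegral.integral_add,
    intervalIntegral.integral_const_mul, intervalIntegral.integral_const_mul,
    intervalIntegral.integral_const_mul, intervalIntegral.integral_const_mul,
    intervalIntegral.integral_const_mul, intervalIntegral.integral_const, integral_cos,
    integral_sin, integral_cos_sq, integral_sin_sq, integral_sin_mul_cos₁]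
  · simp
    ring
  all_goals apply Continuous.intervalIntegrable; fun_prop

theorem main : TaskE := by
  intro n f z s hf hs hsub w
  set B := fderiv ℝ (fderiv ℝ f) z with hB
  by_contra hneg
  rw [not_le] at hneg
  set a := B w w + B (Complex.I • w) (Complex.I • w) with ha
  -- choose ε
  have hw1 : (0 : ℝ) < ‖w‖ ^ 2 + 1 := by positivity
  set ε := -a / (8 * (‖w‖ ^ 2 + 1)) with hε
  have hε0 : 0 < ε := by
    rw [hε]; apply div_pos (by linarith) (by positivity)
  obtain ⟨δ, hδ, hT⟩ := taylor2 f z hf ε hε0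
  -- choose t
  set t := min s (δ / 2) / (‖w‖ + 1) with ht
  have hw2 : (0 : ℝ) < ‖w‖ + 1 := by positivity
  have hm : 0 < min s (δ / 2) := lt_min hs (by linarith)
  have ht0 : 0 < t := div_pos hm hw2
  set W : Cn n := t • w with hW
  have hWn : ‖W‖ ≤ min s (δ / 2) := by
    rw [hW, norm_smul, Real.norm_eq_abs, abs_of_pos ht0, ht, div_mul_eq_mul_div,
      div_le_iff₀ hw2]
    have : ‖w‖ ≤ ‖w‖ + 1 := by linarith
    exact mul_le_mul_of_nonneg_left this hm.le
  have h1 := hsub W (le_trans hWn (min_le_left _ _))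
  -- the circle
  have hv : ∀ θ : ℝ, Complex.exp ((θ : ℂ) * Complex.I) • W =
      Real.cos θ • W + Real.sin θ • (Complex.I • W) := by
    intro θ
    rw [Complex.exp_mul_I, ← Complex.ofReal_cos, ← Complex.ofReal_sin, add_smul, mul_smul]
    have e1 : ∀ (x : ℝ) (y : Cn n), (x : ℂ) • y = x • y := fun x y => algebraMap_smul ℂ x y
    rw [e1, e1]
  have hvn : ∀ θ : ℝ, ‖Complex.exp ((θ : ℂ) * Complex.I) • W‖ = ‖W‖ := by
    intro θ
    rw [norm_smul, Complex.norm_exp_ofReal_mul_I, one_mul]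
  have hpt : ∀ θ : ℝ, f (circ z W θ) ≤ (f z + ε * ‖W‖ ^ 2) + fderiv ℝ f z W * Real.cos θ +
      fderiv ℝ f z (Complex.I • W) * Real.sin θ + (1 / 2 * B W W) * Real.cos θ ^ 2 +
      (1 / 2 * (B W (Complex.I • W) + B (Complex.I • W) W)) * (Real.sin θ * Real.cos θ) +
      (1 / 2 * B (Complex.I • W) (Complex.I • W)) * Real.sin θ ^ 2 := by
    intro θ
    have e1 : ‖Complex.exp ((θ : ℂ) * Complex.I) • W‖ < δ := by
      rw [hvn]
      have := le_trans hWn (min_le_right _ _)
      linarith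
    have e2 := hT _ e1
    rw [hvn] at e2
    unfold circ
    refine le_trans e2 (le_of_eq ?_)
    rw [hv]
    simp only [map_add, map_smul, add_apply, smul_apply,
      smul_eq_mul]
    ring
  have hcont : Continuous (fun θ : ℝ => f (circ z W θ)) := by
    apply hf.continuous.comp
    unfold circ
    fun_prop
  have hint : ∫ θ in (0 : ℝ)..(2 * Real.pi), f (circ z W θ) ≤
      2 * Real.pi * (f z + ε * ‖W‖ ^ 2) + Real.pi * (1 / 2 * B W W) +
        Real.pi * (1 / 2 * B (Complex.I • W) (Complex.I • W)) := by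
    rw [← trig (f z + ε * ‖W‖ ^ 2) (fderiv ℝ f z W) (fderiv ℝ f z (Complex.I • W))
      (1 / 2 * B W W) (1 / 2 * (B W (Complex.I • W) + B (Complex.I • W) W))
      (1 / 2 * B (Complex.I • W) (Complex.I • W))]
    apply intervalIntegral.integral_mono_on (by positivity) (hcont.intervalIntegrable _ _)
    · apply Continuous.intervalIntegrable; fun_prop
    · intro θ _; exact hpt θ
  have hpi := Real.pi_pos
  have h2 : (2 * Real.pi)⁻¹ * ∫ θ in (0 : ℝ)..(2 * Real.pi), f (circ z W θ) ≤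
      f z + ε * ‖W‖ ^ 2 + 1 / 4 * (B W W + B (Complex.I • W) (Complex.I • W)) := by
    calc (2 * Real.pi)⁻¹ * ∫ θ in (0 : ℝ)..(2 * Real.pi), f (circ z W θ) ≤
        (2 * Real.pi)⁻¹ * (2 * Real.pi * (f z + ε * ‖W‖ ^ 2) + Real.pi * (1 / 2 * B W W) +
        Real.pi * (1 / 2 * B (Complex.I • W) (Complex.I • W))) :=
          mul_le_mul_of_nonneg_left hint (by positivity)
      _ = _ := by field_simp; ring
  have hIW : Complex.I • W = t • (Complex.I • w) := by
    rw [hW, smul_comm]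
  have h3 : B W W + B (Complex.I • W) (Complex.I • W) = t ^ 2 * a := by
    rw [hIW, hW, ha]
    simp only [map_smul, smul_apply, smul_eq_mul]
    ring
  have h4 : ‖W‖ ^ 2 = t ^ 2 * ‖w‖ ^ 2 := by
    rw [hW, norm_smul, Real.norm_eq_abs, mul_pow, sq_abs]
  rw [h3, h4] at h2
  have h5 : 0 ≤ t ^ 2 * (ε * ‖w‖ ^ 2 + 1 / 4 * a) := by nlinarith
  have h6 : 0 ≤ ε * ‖w‖ ^ 2 + 1 / 4 * a := by
    by_contra h
    rw [not_le] at h
    have : t ^ 2 * (ε * ‖w‖ ^ 2 + 1 / 4 * a) < 0 := mul_neg_of_pos_of_neg (by positivity) h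
    linarith
  have h7 : ε * (‖w‖ ^ 2 + 1) = -a / 8 := by
    rw [hε]; field_simp
  nlinarith

end E802

theorem taskE : TaskE := E802.main

end Pool.Agent.H369R3.UT
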